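import Pool.Agent.H24.UG.T7

/-!
UNIFORM LOCAL GAP (`MP_c59857_nt`), UDM: the dichotomy on the good points.
-/

set_option autoImplicit false

open MeasureTheory ProbabilityTheory Filter Topology Finset
open scoped Nat ENNReal

namespace Pool.Agent.H36.UG

open Pool.Agent.H24.UG
open Pool.Agent.H24.T2 (Pset)
open Pool.Agent.H67.AG (avgP ul Inv Rt Av SA kap JJ TT InvZ nxt triv tow XN PN TN XX PX TX prX Fac
  Tup dl Dlt Mis bd κ₀ Sw SwE)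

theorem udm_D1 (c : CxE) : Tup c.D1 := by
  refine ⟨fun i => ?_, fun i q => c.Dv _⟩
  exact (c.Dm.comp (c.T.measurable.iterate _)).comp measurable_fst

theorem udm_D2 (c : CxE) : Tup c.D2 := by
  refine ⟨fun i => ?_, fun i q => c.Dv _⟩
  exact (c.Dm.comp (c.T.measurable.iterate _)).comp measurable_snd

theorem udm_Rt {Ω : Type} [mΩ : MeasurableSpace Ω] (T : Ω ≃ᵐ Ω) : Rt T ≤ mΩ :=
  iSup_le fun w => MeasurableSpace.invariants_le (T^[w.factorial])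

theorem pf_UDM (hdr : T_UDR) (htri : Pool.Agent.H67.AG.T_TRI) (hj2 : Pool.Agent.H67.AG.T_J2)
    (hj3 : Pool.Agent.H67.AG.T_J3) : T_UDM := by
  intro c Z hZ
  obtain ⟨hp, h1, h2, _⟩ := hj2 c.X c.μ Z
  obtain ⟨hT, _⟩ := hj3 c.X c.μ c.T Z c.erg.toMeasurePreserving hZ
  have hd := hdr c (JJ c.μ Z) hT h1 h2
  have ht := (htri (c.X × c.X) (Rt (TT c.T)) (JJ c.μ Z) c.k c.D1 c.D2 c.D1 (udm_Rt _)
    (udm_D1 c) (udm_D2 c) (udm_D1 c)).2.2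
  have g0 := c.γ0
  have g1' := c.γ1
  filter_upwards [hd, ht] with q hq hq' g1 g2
  have e1 := hq g1.1 g2.1
  have e2 := g1.2
  have e3 := g2.2
  have e4 := hq'.1
  refine ⟨e4, ?_⟩
  rw [← not_lt, ← not_lt, ← not_and_or]
  rintro ⟨a1, a2⟩
  rw [CxE.MR] at a1 a2
  rw [κ₀] at e2 e3
  obtain ⟨M, hM⟩ : ∃ M : ℝ, M = Mis (JJ c.μ Z) (Rt (TT c.T)) c.D1 c.D2 q := ⟨_, rfl⟩
  rw [← hM] at a1 a2 e1
  obtain ⟨m, hm⟩ : ∃ m : ℝ, m = c.m1 := ⟨_, rfl⟩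
  rw [← hm] at a1 a2
  rw [Cx.m1] at hm
  have h3 : 0 < (M - m) * (c.γ - m - M) := mul_pos (sub_pos.2 a1) (by linarith)
  have h4 : c.γ * M - M ^ 2 ≤ 8 / 10000 * c.γ ^ 3 := by linarith
  have h5 : m * c.γ - m ^ 2 < 8 / 10000 * c.γ ^ 3 := by nlinarith
  have h6 : c.γ ^ 4 ≤ c.γ ^ 3 := pow_le_pow_of_le_one g0.le g1' (by norm_num)
  have h7 : 0 < c.γ ^ 3 := by positivity
  have h8 : m * c.γ - m ^ 2 = 81 / 100000 * c.γ ^ 3 - (81 / 100000) ^ 2 * c.γ ^ 4 := by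
    rw [hm]
    ring
  rw [h8] at h5
  linarith

end Pool.Agent.H36.UG
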