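import Pool.Agent.H24.UG.T4
import Pool.Agent.H67.AG.T3

/-! UNIFORM LOCAL GAP (`MP_c59857_nt`), row UK1: one point. -/

set_option autoImplicit false

open MeasureTheory ProbabilityTheory Filter Topology Finset
open scoped Nat ENNReal

namespace Pool.Agent.H36.UG

open Pool.Agent.H24.UG
open Pool.Agent.H24.T2 (Pset)
open Pool.Agent.H67.AG (avgP ul Inv Rt Av SA kap JJ TT InvZ nxt triv tow XN PN TN XX PX TX prX Fac
  Tup dl Dlt Mis bd κ₀ Sw SwE)

theorem pf_UK1 (hul : Pool.Agent.H67.AG.T_UL) (_hpn : Pool.Agent.H67.AG.T_PN) : T_UK1 := by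
  intro c hk
  obtain ⟨i0, hi0⟩ : ∃ i0 : Fin c.k, ∀ i : Fin c.k, i = i0 := by
    refine ⟨⟨0, c.kpos⟩, fun i => ?_⟩
    apply Fin.ext
    have := i.2
    simp only
    omega
  have hmp : MeasurePreserving c.T c.μ c.μ := c.erg.toMeasurePreserving
  have hprod : ∀ (p : ℕ) (x : c.X), ∏ i, c.D (c.T^[p * c.β i] x) = c.D (c.T^[p * c.β i0] x) := by
    intro p x
    rw [Finset.prod_eq_single i0]
    · intro i _ hi
      exact absurd (hi0 i) hi
    · intro h
      exact absurd (Finset.mem_univ i0) h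
  set b := c.β i0 with hb
  -- the set Y is invariant under the multiples of Q
  have hY : ∀ n : ℕ, c.T^[c.Q * n] ⁻¹' c.Y = c.Y := by
    intro n
    induction n with
    | zero => simp
    | succ n ih =>
      have h1 : c.T^[c.Q * (n + 1)] = c.T^[c.Q * n] ∘ c.T^[c.Q] := by
        rw [← Function.iterate_add, Nat.mul_succ]
      rw [h1, Set.preimage_comp, ih, c.Yinv]
  have hm : ∀ n : ℕ, MeasurePreserving (c.T^[n]) c.μ c.μ := fun n => hmp.iterate n
  have hDb : Measurable fun x => c.D (c.T^[b] x) := c.Dm.comp (hm b).measurable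
  have hset : ∀ s : ℝ, MeasurableSet (c.Y ∩ {x | c.D (c.T^[b] x) ≠ s}) := by
    intro s
    refine c.Ym.inter ?_
    exact (measurableSet_eq_fun hDb measurable_const).compl
  have hterm : ∀ (s : ℝ) (p : ℕ), 1 ≤ p → c.Q ∣ p - 1 →
      c.μ.real (c.Y ∩ {x | ∏ i, c.D (c.T^[p * c.β i] x) ≠ s}) =
      c.μ.real (c.Y ∩ {x | c.D (c.T^[b] x) ≠ s}) := by
    intro s p hp hq
    obtain ⟨n, hn⟩ := hq
    have h1 : ∀ x, c.T^[p * b] x = c.T^[b] (c.T^[c.Q * (n * b)] x) := by
      intro x
      rw [← Function.iterate_add_apply]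
      congr 1
      have : p = c.Q * n + 1 := by omega
      rw [this]; ring
    have h2 : c.Y ∩ {x | ∏ i, c.D (c.T^[p * c.β i] x) ≠ s} =
        c.T^[c.Q * (n * b)] ⁻¹' (c.Y ∩ {x | c.D (c.T^[b] x) ≠ s}) := by
      rw [Set.preimage_inter, hY]
      congr 1
      ext x
      simp only [Set.mem_ofPred_eq, Set.mem_preimage, hprod, h1]
    rw [h2]
    unfold Measure.real
    rw [(hm _).measure_preimage (hset s).nullMeasurableSet]
  -- the integral of D ∘ T^b over Y vanishes
  have hint0 : ∫ x in c.Y, c.D (c.T^[b] x) ∂c.μ = 0 := by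
    have hbij : ∀ n : ℕ, (c.T.symm)^[n] ∘ (c.T^[n]) = id := by
      intro n
      have := (c.T.left_inv : Function.LeftInverse c.T.symm c.T).iterate n
      funext x
      exact this x
    have hbij' : ∀ n : ℕ, (c.T^[n]) ∘ ((c.T.symm)^[n]) = id := by
      intro n
      have := (c.T.right_inv : Function.RightInverse c.T.symm c.T).iterate n
      funext x
      exact this x
    set Y' : Set c.X := (c.T.symm)^[b] ⁻¹' c.Y with hY'
    have hsm : Measurable ((c.T.symm)^[b]) := c.T.symm.measurable.iterate b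
    have hY'm : MeasurableSet Y' := hsm c.Ym
    have h1 : c.T^[b] ⁻¹' Y' = c.Y := by
      rw [hY', ← Set.preimage_comp, hbij, Set.preimage_id]
    have h2 : c.T^[c.Q] ⁻¹' Y' = Y' := by
      have h3 : (c.T.symm)^[b] ∘ c.T^[c.Q] = c.T^[c.Q] ∘ (c.T.symm)^[b] := by
        have hc : Function.Commute (c.T.symm : c.X → c.X) (c.T : c.X → c.X) := by
          intro x
          simp
        have := (hc.iterate_iterate b c.Q)
        funext x
        exact this x
      rw [hY', ← Set.preimage_comp, h3, Set.preimage_comp, c.Yinv]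
    have h4 : ∫ x in c.Y, c.D (c.T^[b] x) ∂c.μ = ∫ x in Y', c.D x ∂c.μ := by
      rw [← h1]
      have he : MeasurableEmbedding (c.T^[b]) := by
        have : ∀ n : ℕ, MeasurableEmbedding (c.T^[n]) := by
          intro n
          induction n with
          | zero => exact MeasurableEmbedding.id
          | succ n ih =>
            rw [Function.iterate_succ]
            exact ih.comp c.T.measurableEmbedding
        exact this b
      exact (hm b).setIntegral_preimage_emb he _ _
    rw [h4]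
    have h5 : MeasurableSet[Inv c.T c.Q] Y' := by
      rw [MeasurableSpace.measurableSet_invariants]
      exact ⟨hY'm, h2⟩
    have hle : Inv c.T c.Q ≤ c.mX := MeasurableSpace.invariants_le _
    have hDi : Integrable c.D c.μ := by
      refine Integrable.of_bound c.Dm.aestronglyMeasurable 1 (Eventually.of_forall fun x => ?_)
      rcases c.Dv x with h | h <;> rw [h] <;> simp
    rw [← setIntegral_condExp hle hDi h5]
    have h6 : ∫ x in Y', (c.μ[c.D | Inv c.T c.Q]) x ∂c.μ = ∫ x in Y', (0 : c.X → ℝ) x ∂c.μ :=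
      integral_congr_ae (ae_restrict_of_ae (c.mr c.Q c.Qpos))
    rw [h6]
    simp
  have haY : ∀ s : ℝ, s = 1 ∨ s = -1 →
      2 * c.μ.real (c.Y ∩ {x | c.D (c.T^[b] x) ≠ s}) = c.μ.real c.Y := by
    intro s hs
    have hint1 := hint0
    have h1 : ∫ x in c.Y, c.D (c.T^[b] x) ∂c.μ =
        ∫ x in c.Y, (s - 2 * s * ({x | c.D (c.T^[b] x) ≠ s}.indicator (fun _ => (1 : ℝ)) x))
          ∂c.μ := by
      refine integral_congr_ae (Eventually.of_forall fun x => ?_)
      simp only
      by_cases hx : c.D (c.T^[b] x) = s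
      · rw [Set.indicator_of_notMem (by simpa using hx), hx]; ring
      · rw [Set.indicator_of_mem (by simpa using hx)]
        rcases c.Dv (c.T^[b] x) with h | h <;> rcases hs with h' | h' <;>
          first
            | (exfalso; apply hx; rw [h, h']; done)
            | (rw [h, h']; norm_num; done)
    have hsD : MeasurableSet {x | c.D (c.T^[b] x) ≠ s} :=
      (measurableSet_eq_fun hDb measurable_const).compl
    rw [h1, integral_sub, integral_const_mul, integral_indicator hsD] at hint1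
    · rw [Measure.restrict_restrict hsD] at hint1
      simp only [integral_const, smul_eq_mul, mul_one, measureReal_restrict_apply_univ] at hint1
      rw [Set.inter_comm] at hint1
      rcases hs with h' | h' <;> rw [h'] at hint1 ⊢ <;> linarith
    · exact integrable_const _
    · refine Integrable.const_mul ?_ _
      exact (integrable_const _).indicator hsD
  -- the relation
  obtain ⟨w, hw, hg⟩ := (c.rel.and c.gam).exists
  have hsb : ∀ p, |c.σ p| ≤ 1 := by
    intro p
    rcases c.σv p with h | h | h <;> rw [h] <;> simp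
  have hbd : ∃ C : ℝ, ∀ m : ℕ, |(avgP (c.Q * w !) m (fun p => |c.σ p|))| ≤ C := by
    refine ⟨1, fun m => ?_⟩
    unfold avgP
    rw [abs_div, abs_of_nonneg (show (0 : ℝ) ≤ ((Pset (c.Q * w !) m).card : ℝ) by positivity),
      abs_of_nonneg (Finset.sum_nonneg fun p _ => abs_nonneg _)]
    refine div_le_one_of_le₀ ?_ (by positivity)
    have := Finset.sum_le_card_nsmul (Pset (c.Q * w !) m) (fun p => |c.σ p|) 1 fun p _ => hsb p
    rw [nsmul_eq_mul, mul_one] at this
    exact this
  have hev : (fun m => avgP (c.Q * w !) m fun p =>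
      |c.σ p| * c.μ.real (c.Y ∩ {x | ∏ i, c.D (c.T^[p * c.β i] x) ≠ c.σ p})) =
        fun m => (c.μ.real c.Y / 2) * (avgP (c.Q * w !) m (fun p => |c.σ p|)) := by
    funext m
    unfold avgP
    rw [← mul_div_assoc, Finset.mul_sum]
    congr 1
    refine Finset.sum_congr rfl fun p hp => ?_
    have h2 : p.Prime ∧ c.Q ∣ p - 1 := by
      unfold Pset at hp
      obtain ⟨_, hpp, hmod⟩ := Finset.mem_filter.1 hp
      refine ⟨hpp, ?_⟩
      have h3 : c.Q * w ! ∣ p - 1 := (Nat.modEq_iff_dvd' hpp.one_le).1 hmod.symm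
      exact (Dvd.intro _ rfl).trans h3
    dsimp only
    rcases c.σv p with h | h
    · have h0 : |c.σ p| = 0 := by rw [h, abs_zero]
      rw [h0, zero_mul, mul_zero]
    · rw [hterm _ p h2.1.one_le h2.2]
      have h5 := haY _ h
      have h6 : c.μ.real (c.Y ∩ {x | c.D (c.T^[b] x) ≠ c.σ p}) = c.μ.real c.Y / 2 := by
        linarith
      rw [h6, mul_comm]
  rw [hev, (hul (c.U w)).2.2.2.1 _ _ hbd] at hw
  have h7 := c.Ypos
  have h8 : c.γ ≤ ul (c.U w) (fun m => avgP (c.Q * w !) m fun p => |c.σ p|) := hg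
  have h9 : c.μ.real c.Y / 2 * c.γ ≤ κ₀ * c.γ ^ 3 * c.μ.real c.Y :=
    (mul_le_mul_of_nonneg_left h8 (by positivity)).trans hw
  unfold κ₀ at h9
  have h10 := c.γ0
  have h11 : c.γ ^ 3 ≤ c.γ := by
    have := pow_le_pow_of_le_one h10.le c.γ1 (show 1 ≤ 3 by norm_num)
    rwa [pow_one] at this
  have h12 : 0 < c.μ.real c.Y * c.γ := mul_pos h7 h10
  have h13 : c.γ ^ 3 * c.μ.real c.Y ≤ c.γ * c.μ.real c.Y :=
    mul_le_mul_of_nonneg_right h11 h7.le
  nlinarith

end Pool.Agent.H36.UG
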